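import Mathlib
import Pool.Agent.Lib_helper98.StarForest.Plane

set_option autoImplicit false

namespace Pool.Agent.Results.MP_b24842_co.ForestStarForest

open Pool.Agent.StarForest

/-- There is a graph on `100` vertices which has a plane drawing with straight edges and girth at
least five, and which is not the union of a forest and a star forest. -/
theorem result :
    ∃ (V : Type) (_ : Fintype V) (G : SimpleGraph V),
      Fintype.card V = 100 ∧
      (∃ p : V → ℝ × ℝ, IsStraightPlaneDrawing G p) ∧
      5 ≤ G.egirth ∧
      ¬ ∃ F S : SimpleGraph V, F.IsAcyclic ∧ IsStarForest S ∧ F ⊔ S = G :=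
  ⟨Vt, inferInstance, G, by simp [Vt], ⟨pl, drawing⟩, five_le_egirth, not_union⟩

end Pool.Agent.Results.MP_b24842_co.ForestStarForest
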